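import Mathlib
import Pool.Agent.TH888.R.Base
import Pool.Agent.H447R2.ML.Spec

set_option autoImplicit false

/-!
# Generalized Wagstaff numbers in a fixed base: error term and sets of exponents

For an integer `b ≥ 2`, a real `β > 0` and a prime `p` let `W b β p` be the `p`-rough part (the
product, with multiplicity, of the prime factors larger than `p`) of `⌊β b ^ p⌋ + 1`.  At
`β = 1 / (b + 1)` this is the number `(b ^ p + 1) / (b + 1)`, for every odd prime `p` that does not
divide `b + 1`.  The base `b` is fixed.  For a set `S` let `M b S β n` be the number of primes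
`p ≤ n` in `S` with `W b β p` prime, and let `V S n` be the sum of `log p / p` over the primes
`p ≤ n` in `S`.  We prove that for almost every `β > 0` and all bases `b` the number of primes
`p ≤ n` with `W b β p` prime is `(e ^ γ / log b) log n + O((log n) ^ (1/2) (log log n) ^ (5/2))`, and
that for every set `S`, almost every `β > 0` and all bases `b` there are infinitely many such primes
`p` in `S` if and only if `V S n` is unbounded, and that in this case
`M b S β n = (e ^ γ / log b) V S n + O((V L) ^ (1/2) (log (V L)) ^ 2)` with `V = V S n` and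
`L = log log n`.
-/

namespace Pool.Agent.Results.MP_ce8d0c_nt.FirstDigits

open Filter Topology MeasureTheory Asymptotics

/-- The product, with multiplicity, of the prime factors of `m` that are larger than `p`. -/
def roughPart (p m : ℕ) : ℕ := (m.primeFactorsList.filter (fun r => p < r)).prod

/-- The `p`-rough part of `⌊β b ^ p⌋ + 1`. -/
noncomputable def W (b : ℕ) (β : ℝ) (p : ℕ) : ℕ := roughPart p (⌊β * (b : ℝ) ^ p⌋₊ + 1)

open Classical in
/-- The number of primes `p ≤ n` in the set `S` for which `W b β p` is prime. -/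
noncomputable def M (b : ℕ) (S : Set ℕ) (β : ℝ) (n : ℕ) : ℕ :=
  ((Finset.range (n + 1)).filter (fun p => p.Prime ∧ p ∈ S ∧ (W b β p).Prime)).card

open Classical in
/-- The sum of `log p / p` over the primes `p ≤ n` in the set `S`. -/
noncomputable def V (S : Set ℕ) (n : ℕ) : ℝ :=
  ∑ p ∈ (Finset.range (n + 1)).filter (fun p => p.Prime ∧ p ∈ S), Real.log p / p

lemma V_eq (S : Set ℕ) (n : ℕ) : V S n = Pool.Agent.TH888.R.VS S n := by
  classical
  unfold V Pool.Agent.TH888.R.VS
  rw [Finset.sum_filter]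
  refine Finset.sum_congr rfl fun p _ => ?_
  by_cases h : p.Prime ∧ p ∈ S
  · rw [if_pos h, if_pos ⟨h.2, h.1⟩]
    rfl
  · rw [if_neg h, if_neg fun h1 => h ⟨h1.2, h1.1⟩]

/-- The special amplitudes. -/
lemma special {b : ℕ} (hb : 2 ≤ b) {p : ℕ} (hp : p.Prime) (hp2 : p ≠ 2) (hpd : ¬ p ∣ b + 1) :
    W b (1 / ((b : ℝ) + 1)) p * (b + 1) = b ^ p + 1 := by
  have hodd : Odd p := hp.odd_of_ne_two hp2
  obtain ⟨M, hM⟩ : b + 1 ∣ b ^ p + 1 := by
    have := hodd.nat_add_dvd_pow_add_pow b 1
    rwa [one_pow] at this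
  have hMr : ((M : ℝ)) * (b + 1) = (b : ℝ) ^ p + 1 := by
    have : ((b : ℝ) ^ p + 1) = (((b ^ p + 1 : ℕ)) : ℝ) := by push_cast; ring
    rw [this, hM]
    push_cast; ring
  have hb0 : (0 : ℝ) < (b : ℝ) + 1 := by positivity
  have hb2 : (2 : ℝ) ≤ b := by exact_mod_cast hb
  have hM0 : 1 ≤ M := by
    rcases Nat.eq_zero_or_pos M with h | h
    · rw [h] at hM
      simp at hM
    · exact h
  have hfl : ⌊1 / ((b : ℝ) + 1) * (b : ℝ) ^ p⌋₊ + 1 = M := by
    have h0 : ⌊1 / ((b : ℝ) + 1) * (b : ℝ) ^ p⌋₊ = M - 1 := by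
      rw [Nat.floor_eq_iff (by positivity), Nat.cast_sub hM0, Nat.cast_one]
      have e : 1 / ((b : ℝ) + 1) * (b : ℝ) ^ p = M - 1 / ((b : ℝ) + 1) := by
        field_simp
        linarith
      rw [e]
      have h1 : 1 / ((b : ℝ) + 1) < 1 := by
        rw [div_lt_one hb0]; linarith
      have h2 : 0 < 1 / ((b : ℝ) + 1) := by positivity
      constructor <;> linarith
    omega
  have hr := Pool.Agent.H447R2.ML.rough_quot (a := (b : ℤ)) (b := -1)
    (IsCoprime.neg_right isCoprime_one_right) (by omega) (by omega) hp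
    (by
      intro h
      apply hpd
      have : ((p : ℕ) : ℤ) ∣ ((b + 1 : ℕ) : ℤ) := by push_cast; simpa using h
      exact_mod_cast this) (x := (M : ℝ)) (by
        push_cast
        rw [hodd.neg_one_pow]
        have hne : (b : ℝ) - -1 ≠ 0 := by linarith
        field_simp
        linarith)
  rw [Nat.floor_natCast] at hr
  have hgeom : (∑ i ∈ Finset.range p, (b : ℤ) ^ i * (-1) ^ (p - 1 - i)) * ((b : ℤ) - -1) =
      (b : ℤ) ^ p - (-1) ^ p := (Commute.all (b : ℤ) (-1)).geom_sum₂_mul p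
  rw [← hr, hodd.neg_one_pow] at hgeom
  unfold W
  rw [hfl]
  have h4 : ((roughPart p M : ℕ) : ℤ) * ((b : ℤ) + 1) = (b : ℤ) ^ p + 1 := by
    have h5 : (roughPart p M : ℤ) = (Pool.Agent.H305R2.roughPart p M : ℤ) := rfl
    rw [h5]
    linarith
  exact_mod_cast h4

lemma floor_succ {v : ℝ} (hv : 0 ≤ v) : ⌊v + 1⌋₊ = ⌊v⌋₊ + 1 := by
  exact_mod_cast Nat.floor_add_natCast hv 1

/-- The library form of the statement in a fixed base. -/
lemma pt (S : Set ℕ) : ∀ᵐ β : ℝ, 0 < β → ∀ b : ℕ, 2 ≤ b → Pool.Agent.TH888.R.Pt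
    (fun p => ⌊β * (b : ℝ) ^ p⌋₊ + 1) (Real.exp Real.eulerMascheroniConstant / Real.log b) S := by
  have h : ∀ b : ℕ, ∀ᵐ β : ℝ, 2 ≤ b → 0 < β → Pool.Agent.TH888.R.Pt
      (fun p => ⌊β * (b : ℝ) ^ p + (fun _ : ℕ => (1 : ℝ)) p⌋₊)
      (Real.exp Real.eulerMascheroniConstant / Real.log b) S := by
    intro b
    by_cases hb : 2 ≤ b
    · have hb2 : (2 : ℝ) ≤ b := by exact_mod_cast hb
      have hg : ∀ p : ℕ, |(fun _ : ℕ => (1 : ℝ)) p| ≤ (1 : ℝ) * (1 : ℝ) ^ p := by simp
      have h := Pool.Agent.TH888.R.pt_floor (α := (b : ℝ)) (κ := 1) (C := 1) (g := fun _ => 1)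
        (by linarith) (by norm_num) (by linarith) hg
        (Pool.Agent.TH888.R.near_base hb (by norm_num) (by linarith) hg) S
      filter_upwards [h] with β hβ _
      exact hβ
    · exact Eventually.of_forall fun β h1 => absurd h1 hb
  filter_upwards [ae_all_iff.2 h] with β hβ h0 b hb
  have h1 := hβ b hb h0
  have e : (fun p : ℕ => ⌊β * (b : ℝ) ^ p + (fun _ : ℕ => (1 : ℝ)) p⌋₊) =
      fun p : ℕ => ⌊β * (b : ℝ) ^ p⌋₊ + 1 := by
    funext p
    exact floor_succ (by positivity)
  rwa [e] at h1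

lemma M_eq (b : ℕ) (S : Set ℕ) (β : ℝ) (n : ℕ) :
    M b S β n = Pool.Agent.TH888.R.cS S (fun p => ⌊β * (b : ℝ) ^ p⌋₊ + 1) n := by
  classical
  unfold M Pool.Agent.TH888.R.cS
  rfl

/-- The generalized Wagstaff numbers are the values at `β = 1 / (b + 1)`, and for almost every `β`,
with the base `b` fixed, the law holds with a square root error term; for every set of primes the
number of prime values is finite or infinite according to the weight of the set, and in the second
case it obeys the corresponding law. -/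
theorem result :
    (∀ b : ℕ, 2 ≤ b → ∀ p : ℕ, p.Prime → p ≠ 2 → ¬ p ∣ b + 1 →
      W b (1 / ((b : ℝ) + 1)) p * (b + 1) = b ^ p + 1) ∧
    (∀ᵐ β : ℝ, 0 < β → ∀ b : ℕ, 2 ≤ b →
      (fun n : ℕ => (M b Set.univ β n : ℝ) -
        Real.exp Real.eulerMascheroniConstant / Real.log b * Real.log n) =O[atTop]
      (fun n : ℕ => Real.sqrt (Real.log n) * (Real.log (Real.log n)) ^ ((5 : ℝ) / 2))) ∧
    (∀ S : Set ℕ, Tendsto (V S) atTop atTop → ∀ᵐ β : ℝ, 0 < β → ∀ b : ℕ, 2 ≤ b →
      (fun n : ℕ => (M b S β n : ℝ) -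
        Real.exp Real.eulerMascheroniConstant / Real.log b * V S n) =O[atTop]
      (fun n : ℕ => Real.sqrt (V S n * Real.log (Real.log n)) *
        (Real.log (V S n * Real.log (Real.log n))) ^ 2)) ∧
    (∀ S : Set ℕ, ∀ᵐ β : ℝ, 0 < β → ∀ b : ℕ, 2 ≤ b →
      ({p : ℕ | p.Prime ∧ p ∈ S ∧ (W b β p).Prime}.Infinite ↔ Tendsto (V S) atTop atTop)) := by
  have hV : ∀ S, V S = Pool.Agent.TH888.R.VS S := fun S => funext fun n => V_eq S n
  refine ⟨fun b hb p hp hp2 hpd => special hb hp hp2 hpd, ?_, fun S hS => ?_, fun S => ?_⟩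
  · filter_upwards [pt Set.univ] with β hβ h0 b hb
    obtain ⟨B, hB, h⟩ := (hβ h0 b hb).law Pool.Agent.TH888.R.VS_univ_tendsto
    simp only [M_eq]
    exact Pool.Agent.TH888.R.bigO_all hB h
  · rw [hV] at hS ⊢
    filter_upwards [pt S] with β hβ h0 b hb
    obtain ⟨B, hB, h⟩ := (hβ h0 b hb).law hS
    simp only [M_eq]
    exact Pool.Agent.TH888.R.bigO_set hB hS h
  · rw [hV]
    filter_upwards [pt S] with β hβ h0 b hb
    constructor
    · intro hi
      by_contra hn
      exact hi ((hβ h0 b hb).fin hn)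
    · exact (hβ h0 b hb).inf

end Pool.Agent.Results.MP_ce8d0c_nt.FirstDigits
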