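import Mathlib
import Pool.Agent.TH888.A.Low
import Pool.Agent.TH888.A.Wag

set_option autoImplicit false

/-!
# Generalized Wagstaff numbers and random last digits in a fixed base

Let `b ≥ 2`.  For a sequence `d` of digits to the base `b` and a prime `p` let `W b d p` be the
`p`-rough part (the product, with multiplicity, of the prime factors larger than `p`) of the integer
with the `p` digits `d_(p-1) ... d_1 d_0`.  For the sequence `1, b - 1, 0, b - 1, 0, b - 1, ...` this
is the number `(b ^ p + 1) / (b + 1)`, for every odd prime `p` that does not divide `b + 1`.  For a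
set `S` let `M b S d n` be the number of primes `p ≤ n` in `S` with `W b d p` prime, and let `V S n`
be the sum of `log p / p` over the primes `p ≤ n` in `S`.  The digits are independent and uniformly
distributed.  We prove that almost surely, if the last digit `d_0` is prime to `b`, the number of
primes `p ≤ n` with `W b d p` prime is
`(e ^ γ / log b) log n + O((log n) ^ (1/2) (log log n) ^ (5/2))`, that for every set `S` almost
surely there are infinitely many such primes `p` in `S` if and only if `V S n` is unbounded, and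
that in this case `M b S d n = (e ^ γ / log b) V S n + O((V L) ^ (1/2) (log (V L)) ^ 2)` with
`V = V S n` and `L = log log n`.
-/

namespace Pool.Agent.Results.MP_ce8d0c_nt.LastDigits

open Filter Topology MeasureTheory Asymptotics

/-- The product, with multiplicity, of the prime factors of `m` that are larger than `p`. -/
def roughPart (p m : ℕ) : ℕ := (m.primeFactorsList.filter (fun r => p < r)).prod

/-- The `p`-rough part of the integer with the digits `d (p - 1), ..., d 1, d 0` to the base `b`. -/
noncomputable def W (b : ℕ) (d : ℕ → Fin b) (p : ℕ) : ℕ :=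
  roughPart p (∑ i ∈ Finset.range p, (d i : ℕ) * b ^ i)

open Classical in
/-- The number of primes `p ≤ n` in the set `S` for which `W b d p` is prime. -/
noncomputable def M (b : ℕ) (S : Set ℕ) (d : ℕ → Fin b) (n : ℕ) : ℕ :=
  ((Finset.range (n + 1)).filter (fun p => p.Prime ∧ p ∈ S ∧ (W b d p).Prime)).card

open Classical in
/-- The sum of `log p / p` over the primes `p ≤ n` in the set `S`. -/
noncomputable def V (S : Set ℕ) (n : ℕ) : ℝ :=
  ∑ p ∈ (Finset.range (n + 1)).filter (fun p => p.Prime ∧ p ∈ S), Real.log p / p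

/-- Independent and uniformly distributed digits to the base `b`. -/
noncomputable def digits (b : ℕ) : Measure (ℕ → Fin b) :=
  Measure.infinitePi (fun _ : ℕ => ProbabilityTheory.uniformOn (Set.univ : Set (Fin b)))

lemma V_eq (S : Set ℕ) (n : ℕ) : V S n = Pool.Agent.TH888.R.VS S n := by
  classical
  unfold V Pool.Agent.TH888.R.VS
  rw [Finset.sum_filter]
  refine Finset.sum_congr rfl fun p _ => ?_
  by_cases h : p.Prime ∧ p ∈ S
  · rw [if_pos h, if_pos ⟨h.2, h.1⟩]
    rfl
  · rw [if_neg h, if_neg fun h1 => h ⟨h1.2, h1.1⟩]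

lemma pt (b : ℕ) (hb : 2 ≤ b) (S : Set ℕ) :
    ∀ᵐ d ∂digits b, Nat.Coprime (d 0) b → Pool.Agent.TH888.R.Pt
      (fun p => ∑ i ∈ Finset.range p, (d i : ℕ) * b ^ i)
      (Real.exp Real.eulerMascheroniConstant / Real.log b) S := by
  have : NeZero b := ⟨by omega⟩
  have h := Pool.Agent.TH888.A.pt_full (b := b) hb (Pool.Agent.W66L.full_digits b) S
  have hd : Pool.Agent.W66L.digitMeasure b = digits b := rfl
  rw [hd] at h
  filter_upwards [h] with d h1 h2
  have h3 : (Pool.Agent.W66L.dsum b 1 d).Coprime b := by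
    have : Pool.Agent.W66L.dsum b 1 d = (d 0 : ℕ) := by
      unfold Pool.Agent.W66L.dsum
      simp
    rw [this]
    exact h2
  exact h1 h3

/-- The values at the sequence `1, b - 1, 0, b - 1, 0, ...` are the generalized Wagstaff numbers,
and almost surely the law holds with a square root error term; for every set of primes the number of
prime values is almost surely finite or infinite according to the weight of the set, and in the
second case it obeys the corresponding law. -/
theorem result :
    (∀ b : ℕ, 2 ≤ b → ∀ d : ℕ → Fin b, (d 0 : ℕ) = 1 → (∀ i, Odd i → (d i : ℕ) = b - 1) →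
      (∀ i, Even i → i ≠ 0 → (d i : ℕ) = 0) → ∀ p : ℕ, p.Prime → p ≠ 2 → ¬ p ∣ b + 1 →
      W b d p * (b + 1) = b ^ p + 1) ∧
    (∀ b : ℕ, 2 ≤ b → ∀ᵐ d ∂digits b, Nat.Coprime (d 0) b →
      (fun n : ℕ => (M b Set.univ d n : ℝ) -
        Real.exp Real.eulerMascheroniConstant / Real.log b * Real.log n) =O[atTop]
      (fun n : ℕ => Real.sqrt (Real.log n) * (Real.log (Real.log n)) ^ ((5 : ℝ) / 2))) ∧
    (∀ b : ℕ, 2 ≤ b → ∀ S : Set ℕ, Tendsto (V S) atTop atTop →
      ∀ᵐ d ∂digits b, Nat.Coprime (d 0) b →
      (fun n : ℕ => (M b S d n : ℝ) -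
        Real.exp Real.eulerMascheroniConstant / Real.log b * V S n) =O[atTop]
      (fun n : ℕ => Real.sqrt (V S n * Real.log (Real.log n)) *
        (Real.log (V S n * Real.log (Real.log n))) ^ 2)) ∧
    (∀ b : ℕ, 2 ≤ b → ∀ S : Set ℕ, ∀ᵐ d ∂digits b, Nat.Coprime (d 0) b →
      ({p : ℕ | p.Prime ∧ p ∈ S ∧ (W b d p).Prime}.Infinite ↔ Tendsto (V S) atTop atTop)) := by
  have hV : ∀ S, V S = Pool.Agent.TH888.R.VS S := fun S => funext fun n => V_eq S n
  have hM : ∀ (b : ℕ) (S : Set ℕ) (d : ℕ → Fin b) (n : ℕ), M b S d n =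
      Pool.Agent.TH888.R.cS S (fun p => ∑ i ∈ Finset.range p, (d i : ℕ) * b ^ i) n := by
    intro b S d n
    classical
    unfold M Pool.Agent.TH888.R.cS
    rfl
  refine ⟨fun b hb d h0 h1 h2 p hp hp2 hpd => ?_, fun b hb => ?_, fun b hb S hS => ?_,
    fun b hb S => ?_⟩
  · obtain ⟨k, hk⟩ := hp.odd_of_ne_two hp2
    have h := Pool.Agent.TH888.A.wag_digits hb (fun i => (d i : ℕ)) h0 h1 h2 k
    rw [← hk] at h
    have h3 := Pool.Agent.W66L.rough_wagstaff hb hp hp2 hpd h
    have h4 : W b d p = ∑ i ∈ Finset.range p, (d i : ℕ) * b ^ i := h3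
    rw [h4]
    exact h
  · filter_upwards [pt b hb Set.univ] with d hd h0
    obtain ⟨B, hB, h⟩ := (hd h0).law Pool.Agent.TH888.R.VS_univ_tendsto
    simp only [hM]
    exact Pool.Agent.TH888.R.bigO_all hB h
  · rw [hV] at hS ⊢
    filter_upwards [pt b hb S] with d hd h0
    obtain ⟨B, hB, h⟩ := (hd h0).law hS
    simp only [hM]
    exact Pool.Agent.TH888.R.bigO_set hB hS h
  · rw [hV]
    filter_upwards [pt b hb S] with d hd h0
    constructor
    · intro hi
      by_contra hn
      exact hi ((hd h0).fin hn)
    · exact (hd h0).inf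

end Pool.Agent.Results.MP_ce8d0c_nt.LastDigits
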